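import Pool.Agent.Q198.SE.Main

/-!
The Simple equation has solutions `(u, e)` with `e` below the ground-state energy per particle.

The definitions are in `Pool.Agent.Q198.SE.Defs`: `IsSimpleSolution v ρ u e` says that `u` is smooth
and integrable and that `(u, e)` satisfies the two equations at density `ρ`; `groundEnergy v N L` is
`E_0(N, L³)` and `IsEnergyPerParticle v ρ e₀` says that `E_0(N, N/ρ)/N → e₀`.
-/

namespace Pool.Agent.Results.MP_76de3d_mp.NegativeEnergySolution

open Q198.SE MeasureTheory

/-- For every density `ρ > 0` there are a bounded, integrable, spherically symmetric potential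
`v ≥ 0` and a solution `(u, e)` of the Simple equation at density `ρ`, with `u` smooth, positive and
integrable, such that `e < 0`, while all the energies `E_0(N, V)` are nonnegative; in particular
`e < e_0(ρ)`. -/
theorem result {ρ : ℝ} (hρ : 0 < ρ) : ∃ v : E3 → ℝ, (∀ x, 0 ≤ v x) ∧ Integrable v ∧
    (∀ x y, ‖x‖ = ‖y‖ → v x = v y) ∧ (∃ C, ∀ x, v x ≤ C) ∧ ∃ (u : E3 → ℝ) (e : ℝ),
      IsSimpleSolution v ρ u e ∧ (∀ x, 0 < u x) ∧ e < 0 ∧ (∀ N L, 0 ≤ groundEnergy v N L) ∧
      ∀ e₀, IsEnergyPerParticle v ρ e₀ → e < e₀ :=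
  main hρ

end Pool.Agent.Results.MP_76de3d_mp.NegativeEnergySolution
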